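import Pool.Agent.W680.WH.Stm

/-!
# S_MOBG: the Moebius group
-/

set_option autoImplicit false

open scoped ComplexConjugate

namespace Pool.Agent.W177.WH

open Pool.Agent.W680.WH

lemma den_ne {a z : ℂ} (ha : ‖a‖ < 1) (hz : ‖z‖ < 1) : 1 - conj a * z ≠ 0 := by
  intro h
  have h1 : conj a * z = 1 := (sub_eq_zero.1 h).symm
  have h2 := congrArg norm h1
  rw [norm_mul, RCLike.norm_conj, norm_one] at h2
  have h3 : ‖a‖ * ‖z‖ < 1 := by
    calc ‖a‖ * ‖z‖ ≤ 1 * ‖z‖ := mul_le_mul_of_nonneg_right ha.le (norm_nonneg _)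
      _ = ‖z‖ := one_mul _
      _ < 1 := hz
  linarith

lemma num_lt {a z : ℂ} (ha : ‖a‖ < 1) (hz : ‖z‖ < 1) : ‖z - a‖ < ‖1 - conj a * z‖ := by
  apply lt_of_pow_lt_pow_left₀ 2 (norm_nonneg _)
  rw [Complex.sq_norm, Complex.sq_norm]
  have e : Complex.normSq (1 - conj a * z) - Complex.normSq (z - a) =
      (1 - Complex.normSq a) * (1 - Complex.normSq z) := by
    simp only [Complex.normSq_apply, Complex.sub_re, Complex.sub_im, Complex.mul_re,
      Complex.mul_im, Complex.one_re, Complex.one_im, Complex.conj_re, Complex.conj_im]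
    ring
  have h1 : Complex.normSq a < 1 := by
    rw [← Complex.sq_norm]
    have := norm_nonneg a
    nlinarith
  have h2 : Complex.normSq z < 1 := by
    rw [← Complex.sq_norm]
    have := norm_nonneg z
    nlinarith
  have h3 := mul_pos (sub_pos.2 h1) (sub_pos.2 h2)
  linarith

lemma frac_lt {a z : ℂ} (ha : ‖a‖ < 1) (hz : ‖z‖ < 1) : ‖(z - a) / (1 - conj a * z)‖ < 1 := by
  rw [norm_div, div_lt_one (norm_pos_iff.2 (den_ne ha hz))]
  exact num_lt ha hz

lemma act_lt (φ : Mob) (z : ℂ) (hz : ‖z‖ < 1) : ‖φ.act z‖ < 1 := by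
  unfold Mob.act
  rw [norm_mul, φ.hc, one_mul]
  exact frac_lt φ.ha hz

lemma mul_conj_one {c : ℂ} (hc : ‖c‖ = 1) : c * conj c = 1 := by
  rw [Complex.mul_conj, ← Complex.sq_norm, hc]
  norm_num

lemma den_eq {c b N D : ℂ} (hD : D ≠ 0) : 1 - b * (c * (N / D)) = (D - b * (c * N)) / D := by
  rw [eq_div_iff hD, sub_mul, one_mul]
  congr 1
  rw [mul_assoc, mul_assoc, div_mul_cancel₀ _ hD]

lemma frac_comp {c a b N D : ℂ} (hD : D ≠ 0) :
    (c * (N / D) - a) / (1 - b * (c * (N / D))) = (c * N - a * D) / (D - b * (c * N)) := by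
  have e1 : c * (N / D) - a = (c * N - a * D) / D := by
    rw [eq_div_iff hD, sub_mul, mul_assoc, div_mul_cancel₀ _ hD]
  rw [e1, den_eq hD, div_div_div_cancel_right₀ hD]

lemma den_ne' {c b N D : ℂ} (hD : D ≠ 0) (h : 1 - b * (c * (N / D)) ≠ 0) :
    D - b * (c * N) ≠ 0 := by
  intro h1
  apply h
  rw [den_eq hD, h1, zero_div]

lemma comp (φ ψ : Mob) : ∃ χ : Mob, ∀ z : ℂ, ‖z‖ < 1 → φ.act (ψ.act z) = χ.act z := by
  obtain ⟨c1, a1, hc1, ha1⟩ := φ
  obtain ⟨c2, a2, hc2, ha2⟩ := ψ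
  have h2 := mul_conj_one hc2
  have hb : ‖-(conj c2 * a1)‖ < 1 := by
    rw [norm_neg, norm_mul, RCLike.norm_conj, hc2, one_mul]
    exact ha1
  obtain ⟨u, hu⟩ : ∃ u, u = 1 + conj a1 * c2 * a2 := ⟨_, rfl⟩
  have huc : conj u = 1 + a1 * conj c2 * conj a2 := by
    rw [hu]
    simp only [map_add, map_mul, map_one, Complex.conj_conj]
  have huc0 : conj u ≠ 0 := by
    have := den_ne ha2 hb
    rw [huc]
    intro h
    apply this
    linear_combination h
  have hu0 : u ≠ 0 := by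
    intro h
    apply huc0
    rw [h, map_zero]
  have hnu : ‖conj u‖ = ‖u‖ := RCLike.norm_conj u
  have ha3 : ‖(a2 + conj c2 * a1) / conj u‖ < 1 := by
    have h := frac_lt ha2 hb
    have e : (a2 + conj c2 * a1) / conj u =
        -((-(conj c2 * a1) - a2) / (1 - conj a2 * -(conj c2 * a1))) := by
      rw [huc, ← neg_div]
      congr 1 <;> ring
    rw [e, norm_neg]
    exact h
  have hc3 : ‖c1 * c2 * (conj u / u)‖ = 1 := by
    rw [norm_mul, norm_mul, norm_div, hc1, hc2, hnu, div_self (norm_ne_zero_iff.2 hu0)]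
    norm_num
  refine ⟨⟨c1 * c2 * (conj u / u), (a2 + conj c2 * a1) / conj u, hc3, ha3⟩, fun z hz => ?_⟩
  have hd2 := den_ne ha2 hz
  have hw : ‖c2 * ((z - a2) / (1 - conj a2 * z))‖ < 1 := by
    rw [norm_mul, hc2, one_mul]
    exact frac_lt ha2 hz
  have hd1 := den_ne ha1 hw
  have hd3 := den_ne ha3 hz
  unfold Mob.act
  simp only
  have e1 : conj ((a2 + conj c2 * a1) / conj u) = (conj a2 + c2 * conj a1) / u := by
    simp only [map_div₀, map_add, map_mul, Complex.conj_conj]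
  rw [e1] at hd3 ⊢
  have hd3' : u - (conj a2 + c2 * conj a1) * z ≠ 0 := by
    intro h
    apply hd3
    field_simp
    linear_combination h
  have hd1' : (1 - conj a2 * z) - conj a1 * (c2 * (z - a2)) ≠ 0 := den_ne' hd2 hd1
  have e2 : c1 * ((c2 * ((z - a2) / (1 - conj a2 * z)) - a1) /
      (1 - conj a1 * (c2 * ((z - a2) / (1 - conj a2 * z))))) =
      c1 * (c2 * (z - a2) - a1 * (1 - conj a2 * z)) /
        ((1 - conj a2 * z) - conj a1 * (c2 * (z - a2))) := by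
    rw [frac_comp hd2, mul_div_assoc]
  have e3 : c1 * c2 * (conj u / u) * ((z - (a2 + conj c2 * a1) / conj u) /
      (1 - (conj a2 + c2 * conj a1) / u * z)) =
      c1 * c2 * (conj u * z - (a2 + conj c2 * a1)) / (u - (conj a2 + c2 * conj a1) * z) := by
    field_simp
  rw [e2, e3, div_eq_div_iff hd1' hd3', huc, hu]
  linear_combination (-(c1 * (a1 * conj a2 * z - a1) *
    ((1 - conj a2 * z) - conj a1 * (c2 * (z - a2))))) * h2

lemma inv (φ : Mob) : ∃ ψ : Mob, (∀ z : ℂ, ‖z‖ < 1 → φ.act (ψ.act z) = z) ∧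
    (∀ z : ℂ, ‖z‖ < 1 → ψ.act (φ.act z) = z) := by
  obtain ⟨c, a, hc, ha⟩ := φ
  have h1 := mul_conj_one hc
  have hc' : ‖conj c‖ = 1 := by rw [RCLike.norm_conj, hc]
  have ha' : ‖-(c * a)‖ < 1 := by rw [norm_neg, norm_mul, hc, one_mul]; exact ha
  have hr : 1 - conj a * a ≠ 0 := den_ne ha ha
  have e1 : conj (-(c * a)) = -(conj c * conj a) := by
    simp only [map_neg, map_mul]
  refine ⟨⟨conj c, -(c * a), hc', ha'⟩, fun z hz => ?_, fun z hz => ?_⟩
  · have hd := den_ne ha' hz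
    have hw : ‖conj c * ((z - -(c * a)) / (1 - conj (-(c * a)) * z))‖ < 1 := by
      rw [norm_mul, hc', one_mul]
      exact frac_lt ha' hz
    have hd2 := den_ne ha hw
    unfold Mob.act
    simp only
    rw [e1] at hd hd2 ⊢
    have hd2' : (1 - -(conj c * conj a) * z) - conj a * (conj c * (z - -(c * a))) ≠ 0 :=
      den_ne' hd hd2
    have e2 : c * ((conj c * ((z - -(c * a)) / (1 - -(conj c * conj a) * z)) - a) /
        (1 - conj a * (conj c * ((z - -(c * a)) / (1 - -(conj c * conj a) * z))))) =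
        c * (conj c * (z - -(c * a)) - a * (1 - -(conj c * conj a) * z)) /
          ((1 - -(conj c * conj a) * z) - conj a * (conj c * (z - -(c * a)))) := by
      rw [frac_comp hd, mul_div_assoc]
    rw [e2, div_eq_iff hd2']
    linear_combination (z + c * a - a * conj a * z + conj a * a * z) * h1
  · have hd := den_ne ha hz
    have hw : ‖c * ((z - a) / (1 - conj a * z))‖ < 1 := by
      rw [norm_mul, hc, one_mul]
      exact frac_lt ha hz
    have hd2 := den_ne ha' hw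
    unfold Mob.act
    simp only
    rw [e1] at hd2 ⊢
    have hd2' : (1 - conj a * z) - -(conj c * conj a) * (c * (z - a)) ≠ 0 :=
      den_ne' hd hd2
    have e2 : conj c * ((c * ((z - a) / (1 - conj a * z)) - -(c * a)) /
        (1 - -(conj c * conj a) * (c * ((z - a) / (1 - conj a * z))))) =
        conj c * (c * (z - a) - -(c * a) * (1 - conj a * z)) /
          ((1 - conj a * z) - -(conj c * conj a) * (c * (z - a))) := by
      rw [frac_comp hd, mul_div_assoc]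
    rw [e2, div_eq_iff hd2']
    linear_combination (z - a * conj a * z - z * conj a * (z - a)) * h1

lemma dec (φ : Mob) : ∃ (k l : Circle) (r : ℝ) (α β ρ σ : Mob), 0 ≤ r ∧ r < 1 ∧ α.c = k ∧
    α.a = 0 ∧ β.c = l ∧ β.a = 0 ∧ ρ.c = 1 ∧ ρ.a = r ∧
    (∀ z : ℂ, ‖z‖ < 1 → α.act (ρ.act z) = σ.act z) ∧
    (∀ z : ℂ, ‖z‖ < 1 → σ.act (β.act z) = φ.act z) := by
  obtain ⟨c, a, hc, ha⟩ := φ
  -- the phase of `a`
  obtain ⟨k0, hk0, hk0a⟩ : ∃ k0 : ℂ, ‖k0‖ = 1 ∧ a = (‖a‖ : ℂ) * k0 := by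
    by_cases h : a = 0
    · exact ⟨1, norm_one, by rw [h]; simp⟩
    · have hn : ‖a‖ ≠ 0 := norm_ne_zero_iff.2 h
      have hn' : (‖a‖ : ℂ) ≠ 0 := by exact_mod_cast hn
      refine ⟨a / ‖a‖, ?_, ?_⟩
      · rw [norm_div, Complex.norm_real, norm_norm, div_self hn]
      · field_simp
  have h1 := mul_conj_one hk0
  have hr : ‖((‖a‖ : ℝ) : ℂ)‖ < 1 := by
    rw [Complex.norm_real, norm_norm]; exact ha
  have hk : ‖c * k0‖ = 1 := by rw [norm_mul, hc, hk0, one_mul]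
  have hl : ‖conj k0‖ = 1 := by rw [RCLike.norm_conj, hk0]
  have hz0 : ‖(0 : ℂ)‖ < 1 := by rw [norm_zero]; exact one_pos
  refine ⟨⟨c * k0, mem_sphere_zero_iff_norm.2 hk⟩,
    ⟨conj k0, mem_sphere_zero_iff_norm.2 hl⟩, ‖a‖,
    ⟨c * k0, 0, hk, hz0⟩, ⟨conj k0, 0, hl, hz0⟩, ⟨1, (‖a‖ : ℝ), norm_one, hr⟩,
    ⟨c * k0, (‖a‖ : ℝ), hk, hr⟩, norm_nonneg _, ha, rfl, rfl, rfl, rfl, rfl, rfl,
    fun z _ => ?_, fun z hz => ?_⟩
  · unfold Mob.act
    simp only [map_zero, zero_mul, sub_zero, div_one, one_mul]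
  · unfold Mob.act
    simp only [map_zero, zero_mul, sub_zero, div_one, Complex.conj_ofReal]
    have e1 : conj a = (‖a‖ : ℂ) * conj k0 := by
      conv_lhs => rw [hk0a]
      rw [map_mul, Complex.conj_ofReal]
    rw [e1]
    have e2 : (‖a‖ : ℂ) * (conj k0 * z) = (‖a‖ : ℂ) * conj k0 * z := by ring
    rw [e2]
    have e3 : c * k0 * ((conj k0 * z - (‖a‖ : ℂ)) / (1 - (‖a‖ : ℂ) * conj k0 * z)) =
        c * ((k0 * (conj k0 * z - (‖a‖ : ℂ))) / (1 - (‖a‖ : ℂ) * conj k0 * z)) := by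
      ring
    rw [e3]
    congr 2
    have e4 : k0 * (conj k0 * z - (‖a‖ : ℂ)) = z - (‖a‖ : ℂ) * k0 := by
      linear_combination z * h1
    rw [e4, ← hk0a]

theorem mobg : S_MOBG := by
  refine ⟨comp, inv, ?_, act_lt, dec⟩
  intro φ ψ h z hz
  obtain ⟨φ', h1, h2⟩ := inv φ
  have h3 : ∀ w : ℂ, ‖w‖ < 1 → ψ.act w = φ'.act w := by
    intro w hw
    rw [← h2 (ψ.act w) (act_lt ψ w hw), h w hw]
  rw [h3 _ (act_lt φ z hz), h2 z hz]

end Pool.Agent.W177.WH
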